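import Pool.Agent.W306.SP.Defs

/-!
# SP-RSLOW: many separated points among random points
-/

set_option autoImplicit false

namespace Pool.Agent.W605.SP

open MeasureTheory Pool.Agent.W306.SP

theorem meas_round : Measurable (fun x : ℝ => ((round x : ℤ) : ℝ)) := by
  have h : (fun x : ℝ => ((round x : ℤ) : ℝ)) = fun x => ((⌊x + 1 / 2⌋ : ℤ) : ℝ) := by
    funext x; rw [round_eq]
  rw [h]
  have h1 : Measurable fun x : ℝ => ⌊x + 1 / 2⌋ := Int.measurable_floor.comp (by fun_prop)
  exact (measurable_of_countable (fun n : ℤ => (n : ℝ))).comp h1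

theorem meas_roundZ : Measurable (fun x : ℝ => round x) := by
  have h : (fun x : ℝ => round x) = fun x => ⌊x + 1 / 2⌋ := by
    funext x; rw [round_eq]
  rw [h]
  exact Int.measurable_floor.comp (by fun_prop)

theorem meas_tsq {d : ℕ} : Measurable fun p : (Fin d → ℝ) × (Fin d → ℝ) => tsq p.1 p.2 := by
  unfold tsq
  refine Finset.measurable_fun_sum _ fun k _ => ?_
  have h1 : Measurable fun p : (Fin d → ℝ) × (Fin d → ℝ) => p.1 k - p.2 k := by fun_prop
  have h2 : Measurable fun p : (Fin d → ℝ) × (Fin d → ℝ) => ((round (p.1 k - p.2 k) : ℤ) : ℝ) :=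
    meas_round.comp h1
  exact (h1.sub h2).abs.pow_const 2

/-- the unit cube -/
def Q (d : ℕ) : Set (Fin d → ℝ) := {z | ∀ k, 0 ≤ z k ∧ z k < 1}

theorem Q_eq (d : ℕ) : Q d = Set.pi Set.univ (fun _ => Set.Ico (0 : ℝ) 1) := by
  ext z; simp [Q, Set.mem_pi]

theorem meas_Q (d : ℕ) : MeasurableSet (Q d) := by
  rw [Q_eq]; exact MeasurableSet.univ_pi fun _ => measurableSet_Ico

theorem vol_Q (d : ℕ) : volume (Q d) = 1 := by
  rw [Q_eq, volume_pi_pi]; simp

/-- the Euclidean ball in the plain pi type -/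
theorem vol_ball (d : ℕ) (r : ℝ) (hr : 0 < r) :
    volume {u : Fin d → ℝ | ∑ k, u k ^ 2 < r ^ 2} = ENNReal.ofReal (vol d r) := by
  unfold vol
  rw [ENNReal.ofReal_toReal measure_ball_lt_top.ne]
  have h := (PiLp.volume_preserving_ofLp (Fin d)).measure_preimage
    (s := {u : Fin d → ℝ | ∑ k, u k ^ 2 < r ^ 2}) (by
      apply MeasurableSet.nullMeasurableSet
      exact measurableSet_lt (by fun_prop) measurable_const)
  rw [← h]
  congr 1
  ext u
  simp only [Set.mem_preimage, Set.mem_ofPred_eq, mem_ball_zero_iff]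
  rw [EuclideanSpace.norm_eq, Real.sqrt_lt' hr]
  simp

/-- the torus ball -/
theorem vol_torus (d : ℕ) (r : ℝ) (hr : 0 < r) (y : Fin d → ℝ) :
    volume {z : Fin d → ℝ | z ∈ Q d ∧ tsq z y < r ^ 2} ≤ ENNReal.ofReal (vol d r) := by
  set S : Set (Fin d → ℝ) := {z | z ∈ Q d ∧ tsq z y < r ^ 2} with hS
  have hSm : MeasurableSet S := by
    have h0 : Measurable fun z : Fin d → ℝ => (z, y) := measurable_id.prodMk measurable_const
    have h1 : Measurable ((fun p : (Fin d → ℝ) × (Fin d → ℝ) => tsq p.1 p.2) ∘ fun z => (z, y)) :=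
      meas_tsq.comp h0
    exact (meas_Q d).inter (measurableSet_lt h1 measurable_const)
  let R : (Fin d → ℝ) → Fin d → ℤ := fun z k => round (z k - y k)
  have hR : Measurable R := by
    refine measurable_pi_lambda _ fun k => ?_
    have h0 : Measurable fun z : Fin d → ℝ => z k - y k := by fun_prop
    exact meas_roundZ.comp h0
  let Sn : (Fin d → ℤ) → Set (Fin d → ℝ) := fun n => S ∩ R ⁻¹' {n}
  have hSn : ∀ n, MeasurableSet (Sn n) := fun n => hSm.inter (hR (measurableSet_singleton n))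
  let c : (Fin d → ℤ) → Fin d → ℝ := fun n k => y k + n k
  let Tn : (Fin d → ℤ) → Set (Fin d → ℝ) := fun n => (fun u => u + c n) ⁻¹' Sn n
  have hTn : ∀ n, MeasurableSet (Tn n) := fun n => (hSn n).preimage (by fun_prop)
  have hvol : ∀ n, volume (Tn n) = volume (Sn n) := fun n => measure_preimage_add_right volume (c n) _
  have hcov : S ⊆ ⋃ n, Sn n := fun z hz => Set.mem_iUnion.2 ⟨R z, hz, rfl⟩
  have hdisj : Pairwise (Function.onFun Disjoint Tn) := by
    intro n n' hn
    rw [Function.onFun, Set.disjoint_left]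
    intro u hu hu'
    apply hn
    obtain ⟨⟨h1, _⟩, h2⟩ := hu
    obtain ⟨⟨h3, _⟩, h4⟩ := hu'
    funext k
    have a1 := h1 k
    have a2 := h3 k
    simp only [c, Pi.add_apply] at a1 a2
    have b1 : ((n k - n' k : ℤ) : ℝ) < 1 := by push_cast; linarith [a1.1, a1.2, a2.1, a2.2]
    have b2 : (-1 : ℝ) < ((n k - n' k : ℤ) : ℝ) := by push_cast; linarith [a1.1, a1.2, a2.1, a2.2]
    have c1 : n k - n' k < 1 := by exact_mod_cast b1
    have c2 : -1 < n k - n' k := by exact_mod_cast b2
    omega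
  have hsub : (⋃ n, Tn n) ⊆ {u : Fin d → ℝ | ∑ k, u k ^ 2 < r ^ 2} := by
    intro u hu
    obtain ⟨n, hn⟩ := Set.mem_iUnion.1 hu
    obtain ⟨⟨_, h1⟩, h2⟩ := hn
    simp only [Set.mem_ofPred_eq]
    refine lt_of_le_of_lt (le_of_eq ?_) h1
    unfold tsq
    refine Finset.sum_congr rfl fun k _ => ?_
    have h3 : round ((u + c n) k - y k) = n k := congrFun h2 k
    simp only at h3 ⊢
    rw [h3, sq_abs]
    simp only [c, Pi.add_apply]
    congr 1; ring
  calc volume S ≤ volume (⋃ n, Sn n) := measure_mono hcov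
    _ ≤ ∑' n, volume (Sn n) := measure_iUnion_le _
    _ = ∑' n, volume (Tn n) := by simp only [hvol]
    _ = volume (⋃ n, Tn n) := (measure_iUnion hdisj hTn).symm
    _ ≤ volume {u : Fin d → ℝ | ∑ k, u k ^ 2 < r ^ 2} := measure_mono hsub
    _ = _ := vol_ball d r hr

/-- the pairs at small distance -/
def Sp (d m : ℕ) (r : ℝ) (i j : Fin m) : Set (Fin m → Fin d → ℝ) :=
  {x | (∀ i, x i ∈ Q d) ∧ tsq (x i) (x j) < r ^ 2}

theorem meas_Sp (d m : ℕ) (r : ℝ) (i j : Fin m) : MeasurableSet (Sp d m r i j) := by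
  have h1 : MeasurableSet {x : Fin m → Fin d → ℝ | ∀ i, x i ∈ Q d} := by
    rw [Set.ofPred_forall]
    exact MeasurableSet.iInter fun i => (meas_Q d).preimage (measurable_pi_apply i)
  have h0 : Measurable fun x : Fin m → Fin d → ℝ => (x i, x j) :=
    (measurable_pi_apply i).prodMk (measurable_pi_apply j)
  have h2 : Measurable ((fun p : (Fin d → ℝ) × (Fin d → ℝ) => tsq p.1 p.2) ∘
      fun x : Fin m → Fin d → ℝ => (x i, x j)) := meas_tsq.comp h0
  exact h1.inter (measurableSet_lt h2 measurable_const)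

theorem vol_Sp (d m : ℕ) (r : ℝ) (hr : 0 < r) (i j : Fin m) (hij : i ≠ j) :
    volume (Sp d m r i j) ≤ ENNReal.ofReal (vol d r) := by
  obtain ⟨n, rfl⟩ : ∃ n, m = n + 1 := ⟨m - 1, by have := i.2; omega⟩
  obtain ⟨j', rfl⟩ := Fin.exists_succAbove_eq hij.symm
  have hmp := volume_preserving_piFinSuccAbove (fun _ : Fin (n + 1) => Fin d → ℝ) i
  set A : Set ((Fin d → ℝ) × (Fin n → Fin d → ℝ)) :=
    {p | (p.1 ∈ Q d ∧ ∀ a, p.2 a ∈ Q d) ∧ tsq p.1 (p.2 j') < r ^ 2} with hA
  have hAm : MeasurableSet A := by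
    have h1 : MeasurableSet {x : Fin n → Fin d → ℝ | ∀ i, x i ∈ Q d} := by
      rw [Set.ofPred_forall]
      exact MeasurableSet.iInter fun i => (meas_Q d).preimage (measurable_pi_apply i)
    have h0 : Measurable fun p : (Fin d → ℝ) × (Fin n → Fin d → ℝ) => (p.1, p.2 j') :=
      measurable_fst.prodMk ((measurable_pi_apply j').comp measurable_snd)
    have h2 : Measurable ((fun p : (Fin d → ℝ) × (Fin d → ℝ) => tsq p.1 p.2) ∘
        fun p : (Fin d → ℝ) × (Fin n → Fin d → ℝ) => (p.1, p.2 j')) := meas_tsq.comp h0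
    exact (((meas_Q d).preimage measurable_fst).inter (h1.preimage measurable_snd)).inter
      (measurableSet_lt h2 measurable_const)
  have hsub : Sp d (n + 1) r i (i.succAbove j') ⊆
      (MeasurableEquiv.piFinSuccAbove (fun _ : Fin (n + 1) => Fin d → ℝ) i) ⁻¹' A := by
    intro x hx
    exact ⟨⟨hx.1 i, fun a => hx.1 _⟩, hx.2⟩
  refine (measure_mono hsub).trans ?_
  rw [hmp.measure_preimage hAm.nullMeasurableSet]
  change (Measure.prod volume volume) A ≤ _
  rw [Measure.prod_apply_symm hAm]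
  have hb : ∀ w : Fin n → Fin d → ℝ, volume ((fun z => (z, w)) ⁻¹' A) ≤
      ({x : Fin n → Fin d → ℝ | ∀ i, x i ∈ Q d}).indicator (fun _ => ENNReal.ofReal (vol d r)) w := by
    intro w
    by_cases hw : ∀ a, w a ∈ Q d
    · rw [Set.indicator_of_mem (show w ∈ {x : Fin n → Fin d → ℝ | ∀ i, x i ∈ Q d} from hw)]
      refine (measure_mono ?_).trans (vol_torus d r hr (w j'))
      intro z hz
      exact ⟨hz.1.1, hz.2⟩
    · have : (fun z => (z, w)) ⁻¹' A = ∅ := by
        ext z
        simp only [Set.mem_preimage, Set.mem_empty_iff_false, iff_false]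
        exact fun hz => hw hz.1.2
      rw [this, measure_empty]
      exact zero_le
  refine (lintegral_mono hb).trans ?_
  have hcube : {x : Fin n → Fin d → ℝ | ∀ i, x i ∈ Q d} = Set.pi Set.univ (fun _ => Q d) := by
    ext x; simp [Set.mem_pi]
  rw [hcube, lintegral_indicator (MeasurableSet.univ_pi fun _ => meas_Q d), setLIntegral_const,
    volume_pi_pi]
  simp [vol_Q]

theorem rslow : S_RSLOW := by
  intro d m m' r hd hr hr2 hmm
  classical
  have hv : 0 ≤ vol d r := ENNReal.toReal_nonneg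
  set Bad : Set (Fin m → Fin d → ℝ) := {x | (∀ i k, 0 ≤ x i k ∧ x i k < 1) ∧
    ∀ J : Finset (Fin m), m' ≤ 2 * J.card → ∃ i ∈ J, ∃ j ∈ J, i ≠ j ∧ tsq (x i) (x j) < r ^ 2} with hBad
  rcases Nat.eq_zero_or_pos m' with h0 | h0
  · have hE : Bad = ∅ := by
      ext x
      simp only [Set.mem_empty_iff_false, iff_false]
      intro hx
      obtain ⟨i, hi, _⟩ := hx.2 ∅ (by rw [h0]; exact Nat.zero_le _)
      exact absurd hi (Finset.notMem_empty i)
    rw [hE, measure_empty]
    simp only [ENNReal.toReal_zero]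
    positivity
  let A : Finset (Fin m) := Finset.univ.filter (fun i => (i : ℕ) < m')
  have hA : A.card = m' := by
    have h1 : A = Finset.univ.image (Fin.castLE hmm) := by
      ext i
      simp only [A, Finset.mem_filter, Finset.mem_univ, true_and, Finset.mem_image]
      constructor
      · intro h; exact ⟨⟨i, h⟩, rfl⟩
      · rintro ⟨a, rfl⟩; exact a.2
    rw [h1, Finset.card_image_of_injective _ (Fin.castLE_injective hmm), Finset.card_univ,
      Fintype.card_fin]
  let PA : Finset (Fin m × Fin m) := (A ×ˢ A).filter (fun p => p.1 ≠ p.2)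
  have hPA : PA.card ≤ m' * m' := by
    refine (Finset.card_filter_le _ _).trans ?_
    rw [Finset.card_product, hA]
  let f : (Fin m → Fin d → ℝ) → ENNReal := fun x =>
    ∑ p ∈ PA, (Sp d m r p.1 p.2).indicator (fun _ => (2 : ENNReal)) x
  have hf : Measurable f :=
    Finset.measurable_fun_sum _ fun p _ => measurable_const.indicator (meas_Sp d m r p.1 p.2)
  have hsub : Bad ⊆ {x | (m' : ENNReal) ≤ f x} := by
    intro x hx
    obtain ⟨hx1, hx2⟩ := hx
    have hxQ : ∀ i, x i ∈ Q d := fun i k => hx1 i k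
    let EE : Finset (Fin m × Fin m) := PA.filter (fun p => tsq (x p.1) (x p.2) < r ^ 2)
    have hfx : f x = ((2 * EE.card : ℕ) : ENNReal) := by
      have h1 : ∀ p ∈ PA, (Sp d m r p.1 p.2).indicator (fun _ => (2 : ENNReal)) x =
          if tsq (x p.1) (x p.2) < r ^ 2 then 2 else 0 := by
        intro p _
        by_cases hp : tsq (x p.1) (x p.2) < r ^ 2
        · rw [if_pos hp, Set.indicator_of_mem (show x ∈ Sp d m r p.1 p.2 from ⟨hxQ, hp⟩)]
        · rw [if_neg hp, Set.indicator_of_notMem (fun h => hp h.2)]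
      simp only [f]
      rw [Finset.sum_congr rfl h1, ← Finset.sum_filter, Finset.sum_const, nsmul_eq_mul]
      push_cast
      ring
    change (m' : ENNReal) ≤ f x
    rw [hfx]
    by_contra hc
    have hc' : 2 * EE.card < m' := by
      rw [not_le] at hc
      exact_mod_cast hc
    let J : Finset (Fin m) := A.filter (fun i => ∀ j ∈ A, j ≠ i → ¬ tsq (x i) (x j) < r ^ 2)
    let J' : Finset (Fin m) := A.filter (fun i => ¬ ∀ j ∈ A, j ≠ i → ¬ tsq (x i) (x j) < r ^ 2)
    have hJJ : J.card + J'.card = m' := by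
      rw [← hA]
      exact Finset.card_filter_add_card_filter_not (s := A) _
    have hJ' : J'.card ≤ EE.card := by
      have h1 : J' ⊆ EE.image Prod.fst := by
        intro i hi
        obtain ⟨hiA, hi2⟩ := Finset.mem_filter.1 hi
        push Not at hi2
        obtain ⟨j, hjA, hji, hj⟩ := hi2
        refine Finset.mem_image.2 ⟨(i, j), ?_, rfl⟩
        refine Finset.mem_filter.2 ⟨Finset.mem_filter.2 ⟨Finset.mk_mem_product hiA hjA, ?_⟩, hj⟩
        exact fun h => hji h.symm
      exact (Finset.card_le_card h1).trans Finset.card_image_le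
    obtain ⟨i, hi, j, hj, hij, hlt⟩ := hx2 J (by omega)
    exact (Finset.mem_filter.1 hi).2 j (Finset.mem_filter.1 hj).1 (Ne.symm hij) hlt
  have hM := mul_meas_ge_le_lintegral (μ := (volume : Measure (Fin m → Fin d → ℝ))) hf (m' : ENNReal)
  have hint : ∫⁻ x, f x ≤ (m' : ENNReal) * (m' * (2 * ENNReal.ofReal (vol d r))) := by
    calc ∫⁻ x, f x = ∑ p ∈ PA, ∫⁻ x, (Sp d m r p.1 p.2).indicator (fun _ => (2 : ENNReal)) x :=
          lintegral_finsetSum _ fun p _ => measurable_const.indicator (meas_Sp d m r p.1 p.2)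
      _ ≤ ∑ p ∈ PA, 2 * ENNReal.ofReal (vol d r) := by
          refine Finset.sum_le_sum fun p hp => ?_
          rw [lintegral_indicator_const (meas_Sp d m r p.1 p.2)]
          gcongr
          exact vol_Sp d m r hr p.1 p.2 (Finset.mem_filter.1 hp).2
      _ = (PA.card : ENNReal) * (2 * ENNReal.ofReal (vol d r)) := by
          rw [Finset.sum_const, nsmul_eq_mul]
      _ ≤ ((m' * m' : ℕ) : ENNReal) * (2 * ENNReal.ofReal (vol d r)) := by
          gcongr
      _ = _ := by push_cast; ring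
  have h1 : (m' : ENNReal) * volume Bad ≤ (m' : ENNReal) * (m' * (2 * ENNReal.ofReal (vol d r))) :=
    (mul_le_mul_right (measure_mono hsub) _).trans (hM.trans hint)
  have h2 : volume Bad ≤ m' * (2 * ENNReal.ofReal (vol d r)) := by
    rwa [ENNReal.mul_le_mul_iff_right (by exact_mod_cast h0.ne') (ENNReal.natCast_ne_top m')] at h1
  have h3 : (m' : ENNReal) * (2 * ENNReal.ofReal (vol d r)) = ENNReal.ofReal (2 * m' * vol d r) := by
    rw [ENNReal.ofReal_mul (by positivity), ENNReal.ofReal_mul (by norm_num), ENNReal.ofReal_natCast]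
    simp
    ring
  rw [h3] at h2
  exact ENNReal.toReal_le_of_le_ofReal (by positivity) h2

end Pool.Agent.W605.SP
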